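import Pool.Agent.Helper23.MV.StP

/-!
# Project MV, module UN2: unsmoothing
-/

set_option autoImplicit false

namespace Pool.Agent.Helper40.MV

open Pool.Agent.Helper23.MV
open Finset

theorem hUn2 : StUn2 := by
  intro f N B hN hB hB1 hf hS
  obtain ⟨h, hh⟩ : ∃ h, h = √B := ⟨_, rfl⟩
  rw [← hh]
  have hh0 : 0 < h := by rw [hh]; exact Real.sqrt_pos.2 hB
  have hh1 : h ≤ 1 := by
    rw [hh]
    exact Real.sqrt_le_one.2 hB1
  have hhB : h * h = B := by rw [hh]; exact Real.mul_self_sqrt hB.le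
  have hNr : (1 : ℝ) ≤ N := by exact_mod_cast hN
  obtain ⟨x, hx⟩ : ∃ x : ℝ, x = N * (1 + h) := ⟨_, rfl⟩
  have hxN : (N : ℝ) ≤ x := by rw [hx]; nlinarith
  have hx2 : x ≤ 2 * N := by rw [hx]; nlinarith
  have h1 := hS x hxN hx2
  have h2 := hS N le_rfl (by linarith)
  rw [Nat.floor_natCast] at h2
  obtain ⟨M, hM⟩ : ∃ M, M = ⌊x⌋₊ := ⟨_, rfl⟩
  rw [← hM] at h1
  have hNM : N ≤ M := by rw [hM]; exact Nat.le_floor hxN
  have hMx : (M : ℝ) ≤ x := by rw [hM]; exact Nat.floor_le (by linarith)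
  have hl0 : 0 < Real.log (1 + h) := Real.log_pos (by linarith)
  have hxp : 0 < x := by linarith
  have hlog : ∀ n ∈ Ioc 0 N, f n * ((Real.log (x / n) : ℝ) : ℂ) =
      f n * ((Real.log (N / n) : ℝ) : ℂ) + ((Real.log (1 + h) : ℝ) : ℂ) * f n := by
    intro n hn
    have hn0 : (0 : ℝ) < n := by exact_mod_cast (mem_Ioc.1 hn).1
    have e1 : x / n = (N / n) * (1 + h) := by rw [hx]; ring
    have e2 : Real.log (x / n) = Real.log (N / n) + Real.log (1 + h) := by
      rw [e1, Real.log_mul (by positivity) (by positivity)]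
    rw [e2]
    push_cast
    ring
  have hsplit : ∑ n ∈ Ioc 0 M, f n * ((Real.log (x / n) : ℝ) : ℂ) =
      ∑ n ∈ Ioc 0 N, f n * ((Real.log (N / n) : ℝ) : ℂ) +
        ((Real.log (1 + h) : ℝ) : ℂ) * ∑ n ∈ Ioc 0 N, f n +
        ∑ n ∈ Ioc N M, f n * ((Real.log (x / n) : ℝ) : ℂ) := by
    rw [← Finset.sum_Ioc_consecutive _ (Nat.zero_le N) hNM, Finset.sum_congr rfl hlog,
      Finset.sum_add_distrib, Finset.mul_sum]
  have htail : ‖∑ n ∈ Ioc N M, f n * ((Real.log (x / n) : ℝ) : ℂ)‖ ≤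
      N * h * Real.log (1 + h) := by
    calc ‖∑ n ∈ Ioc N M, f n * ((Real.log (x / n) : ℝ) : ℂ)‖
        ≤ ∑ n ∈ Ioc N M, ‖f n * ((Real.log (x / n) : ℝ) : ℂ)‖ := norm_sum_le _ _
      _ ≤ ∑ n ∈ Ioc N M, Real.log (1 + h) := by
          refine Finset.sum_le_sum fun n hn => ?_
          have hnN : (N : ℝ) ≤ n := by exact_mod_cast (mem_Ioc.1 hn).1.le
          have hnM : (n : ℝ) ≤ M := by exact_mod_cast (mem_Ioc.1 hn).2
          have hn0 : (0 : ℝ) < n := by linarith
          have e1 : 0 ≤ Real.log (x / n) := by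
            refine Real.log_nonneg ?_
            rw [le_div_iff₀ hn0]
            linarith
          have e2 : Real.log (x / n) ≤ Real.log (1 + h) := by
            refine Real.log_le_log (by positivity) ?_
            rw [div_le_iff₀ hn0, hx]
            nlinarith
          rw [norm_mul, Complex.norm_real, Real.norm_eq_abs, abs_of_nonneg e1]
          calc ‖f n‖ * Real.log (x / n) ≤ 1 * Real.log (x / n) :=
                mul_le_mul_of_nonneg_right (hf n) e1
            _ ≤ Real.log (1 + h) := by rw [one_mul]; exact e2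
      _ = ((M : ℝ) - N) * Real.log (1 + h) := by
          rw [Finset.sum_const, Nat.card_Ioc, nsmul_eq_mul, Nat.cast_sub hNM]
      _ ≤ N * h * Real.log (1 + h) := by
          refine mul_le_mul_of_nonneg_right ?_ hl0.le
          have : x = N + N * h := by rw [hx]; ring
          linarith
  have hmain : Real.log (1 + h) * ‖∑ n ∈ Ioc 0 N, f n‖ ≤
      B * x + B * N + N * h * Real.log (1 + h) := by
    have e1 : ((Real.log (1 + h) : ℝ) : ℂ) * ∑ n ∈ Ioc 0 N, f n =
        (∑ n ∈ Ioc 0 M, f n * ((Real.log (x / n) : ℝ) : ℂ)) -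
          (∑ n ∈ Ioc 0 N, f n * ((Real.log (N / n) : ℝ) : ℂ)) -
          ∑ n ∈ Ioc N M, f n * ((Real.log (x / n) : ℝ) : ℂ) := by
      rw [hsplit]
      ring
    have e2 : Real.log (1 + h) * ‖∑ n ∈ Ioc 0 N, f n‖ =
        ‖((Real.log (1 + h) : ℝ) : ℂ) * ∑ n ∈ Ioc 0 N, f n‖ := by
      rw [norm_mul, Complex.norm_real, Real.norm_eq_abs, abs_of_pos hl0]
    rw [e2, e1]
    refine (norm_sub_le _ _).trans (add_le_add ((norm_sub_le _ _).trans (add_le_add h1 h2)) htail)
  -- conclusion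
  have hlb : 2 * h / (h + 2) ≤ Real.log (1 + h) := Real.le_log_one_add_of_nonneg hh0.le
  have hkey : h * (2 + h) ≤ 5 * Real.log (1 + h) := by
    have e1 : h * (2 + h) ≤ 5 * (2 * h / (h + 2)) := by
      rw [← mul_div_assoc, le_div_iff₀ (by linarith)]
      nlinarith [mul_nonneg hh0.le (sub_nonneg.2 hh1), mul_pos hh0 hh0]
    linarith
  have hfin : Real.log (1 + h) * ‖∑ n ∈ Ioc 0 N, f n‖ ≤ Real.log (1 + h) * (6 * N * h) := by
    refine hmain.trans ?_
    have e1 : B * x + B * N = N * h * (h * (2 + h)) := by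
      rw [← hhB, hx]
      ring
    rw [e1]
    have e2 : N * h * (h * (2 + h)) ≤ N * h * (5 * Real.log (1 + h)) :=
      mul_le_mul_of_nonneg_left hkey (by positivity)
    linarith
  have := le_of_mul_le_mul_left hfin hl0
  linarith

end Pool.Agent.Helper40.MV
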