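import Pool.Agent.Helper23.MV.StE
import Pool.Agent.Helper48.BK.M_Real

/-!
# Project MV, module ZFX: at most one zero very close to `1`
-/

set_option autoImplicit false

namespace Pool.Agent.Helper40.MV

open Pool.Agent.Helper23.MV
open Finset Complex Filter Topology
open scoped ComplexConjugate

/-- the L-function of a real character commutes with conjugation -/
private theorem conj_ZFX (e : PCh) (he : e.Re) (s : ℂ) : e.L (conj s) = conj (e.L s) := by
  have hd := DirichletCharacter.differentiable_LFunction he.2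
  have h1 : AnalyticOnNhd ℂ (DirichletCharacter.LFunction e.χ) Set.univ :=
    hd.differentiableOn.analyticOnNhd isOpen_univ
  have hd2 : Differentiable ℂ (conj ∘ DirichletCharacter.LFunction e.χ ∘ conj) := by
    intro z
    exact differentiableAt_conj_conj_iff.2 (hd _)
  have h3 : AnalyticOnNhd ℂ (conj ∘ DirichletCharacter.LFunction e.χ ∘ conj) Set.univ :=
    hd2.differentiableOn.analyticOnNhd isOpen_univ
  have hopen1 : IsOpen {z : ℂ | 1 < z.re} := isOpen_lt continuous_const continuous_re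
  have h := h1.eqOn_of_preconnected_of_eventuallyEq h3 isPreconnected_univ (z₀ := 2)
    (Set.mem_univ _) (by
      filter_upwards [hopen1.mem_nhds (by simp : (2 : ℂ) ∈ {z : ℂ | 1 < z.re})] with z hz
      have hz1 : 1 < z.re := hz
      have hz2 : 1 < (conj z).re := by rwa [conj_re]
      simp only [Function.comp]
      rw [DirichletCharacter.LFunction_eq_LSeries e.χ hz1,
        DirichletCharacter.LFunction_eq_LSeries e.χ hz2]
      exact (Pool.Agent.Helper48.BK.conj_LSeries_Real e.χ he.1 z).symm) (Set.mem_univ (conj s))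
  simp only [Function.comp, conj_conj] at h
  exact h

/-- zeros have positive multiplicity -/
private theorem mz_ZFX (e : PCh) (he : e.χ ≠ 1) (ρ : ℂ) (h0 : e.L ρ = 0) : 1 ≤ mz e ρ := by
  have hd := DirichletCharacter.differentiable_LFunction he
  have h1 : AnalyticOnNhd ℂ (DirichletCharacter.LFunction e.χ) Set.univ :=
    hd.differentiableOn.analyticOnNhd isOpen_univ
  have ha : AnalyticAt ℂ (DirichletCharacter.LFunction e.χ) ρ := h1 ρ (Set.mem_univ _)
  have hz : analyticOrderAt (DirichletCharacter.LFunction e.χ) ρ ≠ 0 :=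
    ha.analyticOrderAt_ne_zero.2 h0
  have ht : analyticOrderAt (DirichletCharacter.LFunction e.χ) ρ ≠ ⊤ := by
    intro h
    rw [analyticOrderAt_eq_top] at h
    have h2 := h1.eqOn_zero_of_preconnected_of_eventuallyEq_zero isPreconnected_univ
      (Set.mem_univ ρ) h (Set.mem_univ 2)
    exact DirichletCharacter.LFunction_ne_zero_of_one_le_re e.χ (Or.inl he) (by simp) h2
  have h3 : analyticOrderNatAt (DirichletCharacter.LFunction e.χ) ρ ≠ 0 := by
    rw [analyticOrderNatAt]
    intro h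
    rcases ENat.toNat_eq_zero.1 h with h | h
    · exact hz h
    · exact ht h
  exact Nat.one_le_iff_ne_zero.2 h3

theorem hZfx : StZf1 → StZf2 → StZf3 → StZfx := by
  intro z1 z2 z3 lam0 hl
  obtain ⟨c1, X1, hc1, hX1, h1⟩ := z1 lam0 hl
  obtain ⟨c2, X2, hc2, hX2, h2⟩ := z2 lam0 hl
  obtain ⟨c3, X3, hc3, hX3, h3⟩ := z3 lam0 hl
  refine ⟨min c1 (min c2 c3), max X1 (max X2 X3), lt_min hc1 (lt_min hc2 hc3),
    hX1.trans (le_max_left _ _), ?_⟩
  intro X e e' ρ ρ' hX hr hr' h0 h0' hre hre' him him'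
  have hXX1 : X1 ≤ X := (le_max_left _ _).trans hX
  have hXX2 : X2 ≤ X := ((le_max_left _ _).trans (le_max_right _ _)).trans hX
  have hXX3 : X3 ≤ X := ((le_max_right _ _).trans (le_max_right _ _)).trans hX
  have hone : (1 : ℝ) ≤ X := by linarith
  have hp : ∀ c : ℝ, min c1 (min c2 c3) ≤ c → X ^ (min c1 (min c2 c3)) ≤ X ^ c := fun c hc =>
    Real.rpow_le_rpow_of_exponent_le hone hc
  have hp1 := hp c1 (min_le_left _ _)
  have hp2 := hp c2 ((min_le_right _ _).trans (min_le_left _ _))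
  have hp3 := hp c3 ((min_le_right _ _).trans (min_le_right _ _))
  -- one character
  have key : ∀ (f : PCh) (z : ℂ), (f.r : ℝ) ≤ X ^ (min c1 (min c2 c3)) → f.L z = 0 →
      1 - lam0 / Real.log X ≤ z.re → |z.im| ≤ X →
      f.Re ∧ |z.im| ≤ 60 * lam0 / Real.log X := fun f z hf hz hz1 hz2 =>
    h1 X f z hXX1 (hf.trans hp1) hz hz1 hz2
  have uniq : ∀ (f : PCh) (z w : ℂ), (f.r : ℝ) ≤ X ^ (min c1 (min c2 c3)) → f.Re → f.L z = 0 →
      f.L w = 0 → 1 - lam0 / Real.log X ≤ z.re → 1 - lam0 / Real.log X ≤ w.re →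
      |z.im| ≤ 60 * lam0 / Real.log X → |w.im| ≤ 60 * lam0 / Real.log X → z = w := by
    intro f z w hf hR hz hw hz1 hw1 hz2 hw2
    by_contra hne
    have h := h2 X f {z, w} hXX2 (hf.trans hp2) hR (by
      intro v hv
      rcases Finset.mem_insert.1 hv with rfl | hv
      · exact ⟨hz, hz1, hz2⟩
      · rw [Finset.mem_singleton] at hv
        subst hv
        exact ⟨hw, hw1, hw2⟩)
    rw [Finset.sum_pair hne] at h
    have a1 : (1 : ℝ) ≤ mz f z := by exact_mod_cast mz_ZFX f hR.2 z hz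
    have a2 : (1 : ℝ) ≤ mz f w := by exact_mod_cast mz_ZFX f hR.2 w hw
    linarith
  have real : ∀ (f : PCh) (z : ℂ), (f.r : ℝ) ≤ X ^ (min c1 (min c2 c3)) → f.L z = 0 →
      1 - lam0 / Real.log X ≤ z.re → |z.im| ≤ X → z.im = 0 := by
    intro f z hf hz hz1 hz2
    obtain ⟨hR, hi⟩ := key f z hf hz hz1 hz2
    have hcj : f.L (conj z) = 0 := by rw [conj_ZFX f hR, hz, map_zero]
    have h := uniq f z (conj z) hf hR hz hcj hz1 (by rwa [conj_re]) hi
      (by rwa [conj_im, abs_neg])
    exact conj_eq_iff_im.1 h.symm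
  obtain ⟨hR, hi⟩ := key e ρ hr h0 hre him
  obtain ⟨hR', hi'⟩ := key e' ρ' hr' h0' hre' him'
  have i0 := real e ρ hr h0 hre him
  have i0' := real e' ρ' hr' h0' hre' him'
  have e1 : ((ρ.re : ℝ) : ℂ) = ρ := Complex.ext (by simp) (by simp [i0])
  have e1' : ((ρ'.re : ℝ) : ℂ) = ρ' := Complex.ext (by simp) (by simp [i0'])
  have hee : e = e' := h3 X e e' ρ.re ρ'.re hXX3 (hr.trans hp3) (hr'.trans hp3) hR hR'
    (by rw [e1]; exact h0) (by rw [e1']; exact h0') hre hre'
  subst hee
  refine ⟨rfl, uniq e ρ ρ' hr hR h0 h0' hre hre' hi hi', i0, hR, ?_⟩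
  have h := h2 X e {ρ} hXX2 (hr.trans hp2) hR (by
    intro v hv
    rw [Finset.mem_singleton] at hv
    subst hv
    exact ⟨h0, hre, hi⟩)
  rw [Finset.sum_singleton] at h
  have a1 := mz_ZFX e hR.2 ρ h0
  have a2 : mz e ρ < 2 := by exact_mod_cast h
  omega

end Pool.Agent.Helper40.MV
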